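import Pool.Agent.J4H50.YK.Stm

set_option autoImplicit false

/-! # Project YK, (W5): the generating function of a semi-weighted-homogeneous germ -/

namespace Pool.Agent.J4H72.YK

open MvPolynomial hiding C X
open Pool.Agent.W428.MOT
open Pool.Agent.TH192.MT (ar)
open Pool.Agent.J4H50.YJ
open Pool.Agent.J4H50.YK
open Pool.Agent.J4H50.YM (swA swV swZM)
open Pool.Agent.W574.MO (geo mf)

/-- the order of `G(x)` on `Sf w D 1 s` is at least `s` -/
theorem X_pow_dvd_aeval {K : Type} [Field K] {σ : Type} [Fintype σ] (G : MvPolynomial σ K)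
    (w : σ → ℕ) {D : ℕ} (hD : 0 < D) (hG : ∀ a, coeff a G ≠ 0 → D ≤ Finsupp.weight w a) (s : ℕ)
    (x : Ac K σ) (hx : x ∈ (Sf w D 1 s : Set (Ac K σ))) :
    (PowerSeries.X : PowerSeries (AlgebraicClosure K)) ^ s ∣ aeval x G := by
  have h1 : ∀ i, (PowerSeries.X : PowerSeries (AlgebraicClosure K)) ^ ((s * w i + D - 1) / D) ∣
      x i := by
    intro i
    rw [PowerSeries.X_pow_dvd_iff]
    intro j hj
    apply hx i j
    have h2 : (j + 1) * D ≤ s * w i + D - 1 := (Nat.le_div_iff_mul_le hD).1 hj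
    have h3 : (j + 1) * D = j * D + D := by ring
    have h4 : D * 1 * j = j * D := by ring
    omega
  rw [aeval_def, eval₂_eq']
  refine Finset.dvd_sum fun a ha => dvd_mul_of_dvd_right ?_ _
  have h5 : D ≤ Finsupp.weight w a := hG a (mem_support_iff.1 ha)
  have h6 : Finsupp.weight w a = ∑ i, a i * w i := by
    rw [Finsupp.weight_apply, Finsupp.sum_fintype _ _ (by simp)]
    simp [smul_eq_mul]
  have h7 : s ≤ ∑ i, ((s * w i + D - 1) / D) * a i := by
    have h8 : s * D ≤ (∑ i, ((s * w i + D - 1) / D) * a i) * D := by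
      calc s * D ≤ s * ∑ i, a i * w i := Nat.mul_le_mul_left s (h6 ▸ h5)
        _ = ∑ i, a i * (s * w i) := by
          rw [Finset.mul_sum]
          exact Finset.sum_congr rfl fun i _ => by ring
        _ ≤ ∑ i, ((s * w i + D - 1) / D) * a i * D := by
          refine Finset.sum_le_sum fun i _ => ?_
          have h9 : s * w i ≤ (s * w i + D - 1) / D * D := by
            have h10 := Nat.div_add_mod (s * w i + D - 1) D
            have h11 := Nat.mod_lt (s * w i + D - 1) hD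
            have h12 : D * ((s * w i + D - 1) / D) = (s * w i + D - 1) / D * D := Nat.mul_comm _ _
            omega
          calc a i * (s * w i) ≤ a i * ((s * w i + D - 1) / D * D) := Nat.mul_le_mul_left _ h9
            _ = _ := by ring
        _ = _ := by rw [Finset.sum_mul]
    exact Nat.le_of_mul_le_mul_right h8 hD
  calc (PowerSeries.X : PowerSeries (AlgebraicClosure K)) ^ s
      ∣ PowerSeries.X ^ (∑ i, ((s * w i + D - 1) / D) * a i) := pow_dvd_pow _ h7
    _ = ∏ i, (PowerSeries.X ^ ((s * w i + D - 1) / D)) ^ a i := by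
        rw [← Finset.prod_pow_eq_pow_sum]
        exact Finset.prod_congr rfl fun i _ => by rw [pow_mul]
    _ ∣ ∏ i, x i ^ a i := Finset.prod_dvd_prod_of_dvd _ _ fun i _ => pow_dvd_pow_of_dvd (h1 i) _

section geo

open PowerSeries (C X)

variable {R : Type} [CommRing R]

theorem geo_spec (u : Rˣ) :
    (1 - C ((u⁻¹ : Rˣ) : R) * X) * geo u 1 1 = 1 := by
  have h := PowerSeries.mul_invOfUnit
    (1 - C (((u⁻¹ ^ 1 : Rˣ) : R)) * X ^ 1 : PowerSeries R) 1 (by simp)
  rw [pow_one, pow_one] at h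
  rw [Pool.Agent.W574.MO.geo, pow_one, pow_one]
  exact h

/-- `∑_j w ^ j X ^ j` -/
theorem geo_one (u : Rˣ) : geo u 1 1 = PowerSeries.mk fun j => ((u⁻¹ : Rˣ) : R) ^ j := by
  have h1 := geo_spec u
  have h2 : (1 - C ((u⁻¹ : Rˣ) : R) * X) * (PowerSeries.mk fun j => ((u⁻¹ : Rˣ) : R) ^ j) =
      (1 : PowerSeries R) := by
    ext j
    rw [sub_mul, one_mul, mul_assoc, map_sub, PowerSeries.coeff_mk, PowerSeries.coeff_C_mul]
    rcases j with _ | j
    · simp
    · rw [PowerSeries.coeff_succ_X_mul, PowerSeries.coeff_mk, PowerSeries.coeff_one,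
        if_neg (by omega), pow_succ]
      ring
  calc geo u 1 1 = ((1 - C ((u⁻¹ : Rˣ) : R) * X) *
        (PowerSeries.mk fun j => ((u⁻¹ : Rˣ) : R) ^ j)) * geo u 1 1 := by rw [h2, one_mul]
    _ = (PowerSeries.mk fun j => ((u⁻¹ : Rˣ) : R) ^ j) *
        ((1 - C ((u⁻¹ : Rˣ) : R) * X) * geo u 1 1) := by ring
    _ = _ := by rw [h1, mul_one]

theorem mf_one (u : Rˣ) : mf u 1 1 =
    X * PowerSeries.mk fun j => (1 - ((u⁻¹ : Rˣ) : R)) * ((u⁻¹ : Rˣ) : R) ^ j := by
  have h1 : (PowerSeries.mk fun j => (1 - ((u⁻¹ : Rˣ) : R)) * ((u⁻¹ : Rˣ) : R) ^ j) =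
      C (1 - ((u⁻¹ : Rˣ) : R)) * geo u 1 1 := by
    rw [geo_one]
    ext j
    rw [PowerSeries.coeff_mk, PowerSeries.coeff_C_mul, PowerSeries.coeff_mk]
  have h2 : ((u : R) - 1) * ((u⁻¹ ^ 1 : Rˣ) : R) = 1 - ((u⁻¹ : Rˣ) : R) := by
    rw [pow_one, sub_mul, Units.mul_inv, one_mul]
  rw [h1, mf, if_neg one_ne_zero, h2, pow_one]
  ring

theorem coeff_mul_mf (u : Rˣ) (E : PowerSeries R) (hE : PowerSeries.coeff 0 E = 0) (l : ℕ) :
    PowerSeries.coeff (l + 1) (E * mf u 1 1) =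
      ∑ m ∈ Finset.Icc 1 l, PowerSeries.coeff m E *
        ((1 - ((u⁻¹ : Rˣ) : R)) * ((u⁻¹ : Rˣ) : R) ^ (l - m)) := by
  have key : ∀ (f : ℕ → R) (n : ℕ), ∑ m ∈ Finset.Icc 1 n, f m = ∑ k ∈ Finset.range n, f (k + 1) := by
    intro f n
    induction n with
    | zero => simp
    | succ n ih => rw [Finset.sum_Icc_succ_top (by omega), Finset.sum_range_succ, ih]
  have h1 : E * mf u 1 1 = X * (E * PowerSeries.mk fun j =>
      (1 - ((u⁻¹ : Rˣ) : R)) * ((u⁻¹ : Rˣ) : R) ^ j) := by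
    rw [mf_one]
    ring
  rw [h1, PowerSeries.coeff_succ_X_mul, PowerSeries.coeff_mul, key]
  simp only [PowerSeries.coeff_mk]
  rw [Finset.Nat.sum_antidiagonal_eq_sum_range_succ (fun a b => PowerSeries.coeff a E *
    ((1 - ((u⁻¹ : Rˣ) : R)) * ((u⁻¹ : Rˣ) : R) ^ b)), Nat.succ_eq_add_one, Finset.sum_range_succ', hE,
    zero_mul, add_zero]

end geo

theorem t_W5 : Bas → S_W0 → S_W1 → S_W2 → S_W4 → S_W5 := by
  intro _ hW0 hW1 hW2 hW4 K _ R _ M u hu σ _ G w D hw hD hG hz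
  have hv : M.L * ((u⁻¹ : Rˣ) : R) = 1 := by rw [hu, Units.mul_inv]
  obtain ⟨po, hpo⟩ := hW2 M _ hv G w D hw hD hG
  refine ⟨po, ?_⟩
  have hw0 : ∀ i, 0 < w i := fun i => (hw i).1
  have hLn : M.L ^ Fintype.card σ * ((u⁻¹ : Rˣ) : R) ^ Fintype.card σ = 1 := by
    rw [← mul_pow, hv, one_pow]
  -- the coefficients
  have hVc : ∀ m, M.L ^ Fintype.card σ * vol M ((u⁻¹ : Rˣ) : R) (Sf w D 1 (m + 1) : Set (Ac K σ)) =
      PowerSeries.coeff m (swV u w D) := by
    intro m
    rw [(hW0 M _ hv w D 1 m hw0 hD one_pos).2, pow_add, ← mul_assoc, hLn, one_mul, swV,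
      PowerSeries.coeff_mk, Units.val_pow_eq_pow_val]
    simp only [mul_one]
  have hAc : ∀ m, 1 ≤ m → M.L ^ Fintype.card σ * vol M ((u⁻¹ : Rˣ) : R)
      {x ∈ (Sf w D 1 m : Set (Ac K σ)) | Od (aeval x G) m} = PowerSeries.coeff m (swA u w D po) := by
    intro m hm
    rw [hpo m hm, pow_add, mul_assoc, ← mul_assoc, hLn, one_mul, swA,
      PowerSeries.coeff_mk, if_neg (by omega), Units.val_pow_eq_pow_val]
  have hE0 : PowerSeries.coeff 0 (1 - (1 - PowerSeries.X) * swV u w D - swA u w D po) = 0 := by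
    have h1 : ∑ i, ((0 + 1) * w i - 1) / D = 0 := by
      refine Finset.sum_eq_zero fun i _ => Nat.div_eq_of_lt ?_
      have := hw i
      omega
    have h2 : PowerSeries.coeff 0 (swV u w D) = 1 := by
      rw [swV, PowerSeries.coeff_mk, h1, pow_zero, Units.val_one]
    have h3 : PowerSeries.coeff 0 (swA u w D po) = 0 := by
      rw [swA, PowerSeries.coeff_mk, if_pos rfl]
    rw [map_sub, map_sub, sub_mul, one_mul, map_sub, h2, h3, PowerSeries.coeff_zero_X_mul]
    simp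
  have hEm : ∀ m, 1 ≤ m → PowerSeries.coeff m (1 - (1 - PowerSeries.X) * swV u w D - swA u w D po) =
      PowerSeries.coeff (m - 1) (swV u w D) - PowerSeries.coeff m (swV u w D) -
        PowerSeries.coeff m (swA u w D po) := by
    intro m hm
    obtain ⟨k, rfl⟩ : ∃ k, m = k + 1 := ⟨m - 1, by omega⟩
    rw [map_sub, map_sub, sub_mul, one_mul, map_sub, PowerSeries.coeff_succ_X_mul,
      PowerSeries.coeff_one, if_neg (by omega), Nat.add_sub_cancel]
    ring
  ext l
  rw [zs, PowerSeries.coeff_mk]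
  rcases l with _ | l
  · rw [if_pos rfl, swZM, map_add]
    have h3 : PowerSeries.coeff 0 (swA u w D po) = 0 := by
      rw [swA, PowerSeries.coeff_mk, if_pos rfl]
    rw [h3, mf_one, ← mul_assoc, mul_comm _ PowerSeries.X, mul_assoc, PowerSeries.coeff_zero_X_mul,
      add_zero]
  · rw [if_neg (by omega), hW1 M _ hv G w D hw hD hG (l + 1) (by omega), swZM, map_add,
      coeff_mul_mf u _ hE0 l, Finset.sum_Icc_succ_top (by omega), mul_add, add_comm, Finset.mul_sum]
    congr 1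
    · rw [← hAc (l + 1) (by omega)]
      congr 2
      ext x
      constructor
      · rintro ⟨h1, -, h2⟩
        exact ⟨h1, h2⟩
      · rintro ⟨h1, h2⟩
        refine ⟨h1, fun h3 => ?_, h2⟩
        have h4 := X_pow_dvd_aeval G w hD hG (l + 1 + 1) x h3
        rw [PowerSeries.X_pow_dvd_iff] at h4
        exact h2.2 (h4 (l + 1) (by omega))
    · refine Finset.sum_congr rfl fun m hm => ?_
      rw [Finset.mem_Icc] at hm
      rw [hW4 M _ hv G w D hw hD hG hz m (l + 1) hm.1 (by omega), ← mul_assoc, mul_sub, mul_sub,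
        hVc m, hAc m hm.1, hEm m hm.1]
      obtain ⟨k, rfl⟩ : ∃ k, m = k + 1 := ⟨m - 1, by omega⟩
      rw [hVc k, Nat.add_sub_cancel, show l + 1 - (k + 1) - 1 = l - (k + 1) by omega]

end Pool.Agent.J4H72.YK
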